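import Pool.Agent.H997.BM.TwoSided

/-!
# The outer-minimizing and the no-horizon mass in the spherically symmetric class

`Σ = {|x| = R}`, `R > m / 2`, is a sphere outside the horizon of the time-symmetric Schwarzschild
slice of mass `m` (on `ℝ³ ∖ {0}`, conformal factor `schw m r = 1 + m / (2 r)`). `Ext m R φ h M`
says that `(φ(|x|)⁴ δ, h)` is a smooth spherically symmetric extension of it across `Σ`, satisfying
`μ ≥ |J|` and asymptotically flat with total mass `M`; here `h` is any smooth spherically symmetric
tensor, and the mass is computed in a chart `y = lam x`.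

Both masses of the problem are computed in this class, under both conventions for apparent
horizons:

* the least total mass of an extension in which no centred sphere enclosing `Σ` has smaller area
  than `Σ` (a necessary condition for `Σ` to be outer-minimizing) is `m`; it is attained by the
  slice itself;
* with the convention of the problem, `H_S = tr_S h`, the infimum of the total mass over the
  extensions without apparent horizons outside `Σ` (surfaces of ANY shape are excluded) is `0`, and
  it is not attained;
* with the two-sided convention, where `H_S = tr_S h` and `H_S = - tr_S h` are both excluded, the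
  least total mass is `m` again.

So in this class the two masses of the problem differ, `m_outer(Σ) = m ≠ 0 = m_B(Σ)`, and it is the
absence of surfaces with `H_S = - tr_S h` that makes them equal.
-/

set_option autoImplicit false

namespace Pool.Agent.Results.MP_c642b3_mp.SphericalClass

open Pool.Agent.K4H63.PI Pool.Agent.H997.BM Set

/-- Total masses of the spherically symmetric extensions, across `|x| = R`, of the Schwarzschild
slice of mass `m`, in which every centred sphere enclosing `|x| = R` has at least its area. -/
def outerMasses (m R : ℝ) : Set ℝ := {M | ∃ φ h, Ext m R φ h M ∧ OuterMin R φ}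

/-- Total masses of the spherically symmetric extensions, across `|x| = R`, of the Schwarzschild
slice of mass `m`, without apparent horizons `H_S = tr_S h` (of any shape) outside `|x| = R`. -/
def bartnikMasses (m R : ℝ) : Set ℝ := {M | ∃ φ h, Ext m R φ h M ∧ NoHorizon R φ h}

/-- The same, without surfaces `H_S = tr_S h` and without surfaces `H_S = - tr_S h`. -/
def twoSidedMasses (m R : ℝ) : Set ℝ := {M | ∃ φ h, Ext m R φ h M ∧ NoHorizonTwo R φ h}

theorem result (m R : ℝ) (hm : 0 < m) (hR : m / 2 < R) :
    IsLeast (outerMasses m R) m ∧
    IsGLB (bartnikMasses m R) 0 ∧ 0 ∉ bartnikMasses m R ∧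
    IsLeast (twoSidedMasses m R) m ∧
    sInf (outerMasses m R) = m ∧ sInf (bartnikMasses m R) = 0 ∧ sInf (twoSidedMasses m R) = m := by
  have hR0 : 0 < R := by linarith
  have h1 : IsLeast (outerMasses m R) m := by
    refine ⟨⟨schw m, 0, schw_ext hm, schw_outerMin hm hR⟩, ?_⟩
    rintro M ⟨φ, h, e, ho⟩
    exact e.mass_ge hm hR0 ho
  have h2 : IsGLB (bartnikMasses m R) 0 := by
    constructor
    · rintro M ⟨φ, h, e, _⟩
      exact (e.mass_pos hm hR0).le
    · intro b hb
      by_contra hlt
      obtain ⟨φ, h, M, hM, e, hn⟩ := small_ext (R := R) hm hR (not_le.1 hlt)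
      exact absurd (hb ⟨φ, h, e, hn⟩) (not_le.2 hM)
  have h3 : 0 ∉ bartnikMasses m R := by
    rintro ⟨φ, h, e, _⟩
    exact lt_irrefl _ (e.mass_pos hm hR0)
  have h4 : IsLeast (twoSidedMasses m R) m := by
    refine ⟨⟨schw m, 0, schw_ext hm, schw_noHorizonTwo hm hR⟩, ?_⟩
    rintro M ⟨φ, h, e, ho⟩
    exact e.mass_ge_two hm hR ho
  obtain ⟨φ, h, M, _, e, hn⟩ := small_ext (R := R) hm hR one_pos
  exact ⟨h1, h2, h3, h4, h1.csInf_eq, h2.csInf_eq ⟨M, φ, h, e, hn⟩, h4.csInf_eq⟩

end Pool.Agent.Results.MP_c642b3_mp.SphericalClass
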