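import Pool.Agent.H997.BM.Final

/-!
# The no-horizon Bartnik mass vanishes: a trapped shell

Notation (definitions in the imported files, in coordinates; the chosen end is `|x| → ∞`):
`metric φ` is `φ(|x|)⁴ δ`, and `schw m r = 1 + m / (2 r)`, so that `metric (schw m)` is the
time-symmetric Schwarzschild slice of mass `m`, with horizon `|x| = m / 2`; `energy` and
`momentumNorm` are `μ` and `|J|`; a `Surface u` is a nonempty compact regular `C²` surface
`S = {u = 0}` bounding `{u < 0}`; `levelMeanCurv G u` is `H_S` for the outward normal and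
`levelTrace G h u` is `tr_S h`. As in the problem, an apparent horizon is a surface with
`H_S = tr_S h` (one sign).

Let `(G, h)` be ARBITRARY data which is exactly the Schwarzschild slice of mass `m > 0` for
`|x| > R₀`. For every `R ≥ R₀` with `R > m / 2` and every `ε > 0` there is data `(G', h')`, equal to
`(G, h)` for `|x| < R₁` where `R₁ > R`, smooth for `|x| > R`, satisfying `μ ≥ |J|` for `|x| > R`
and wherever `(G, h)` does, exactly Schwarzschild of mass `M < ε` near infinity (in the chart
`y = lam x`), such that every surface not contained in `|x| ≤ R` has a point with `H_S > tr_S h'`.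
So all apparent horizons of `(G', h')` lie where nothing was changed.

Consequences. If `Σ` has an extension without apparent horizons in `Õ` which is exactly
Schwarzschild of positive mass near infinity, then `m_B(Σ) ≤ 0`. This applies to every surface `Σ`
outside the horizon of the Schwarzschild slice itself, such as `Σ = {|x| = R}`, `R > m / 2`, for
which the problem file lists `m_outer(Σ) = m > 0` as known.

Idea of the proof: with area radius `ρ`, `v = H ρ / 2`, `p = ρ tr_S h / 2` as functions of
`t = log |x|` and `h` tangential, `μ ≥ |J|` reads `2 (v - p)' ≤ 1 - (v - p)(v + p)` and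
`2 (v + p)' ≤ 1 - (v - p)(v + p)`. One can keep `v - p > 0`, so that no sphere has `H = tr h`, and
make `v + p < -1` on a long interval; there `ρ` and the mass shrink exponentially. A surface of any
shape is compared with the centred sphere through its farthest point.
-/

set_option autoImplicit false

namespace Pool.Agent.Results.MP_c642b3_mp.TrappedShell

open scoped ContDiff
open Pool.Agent.K4H63.PI Pool.Agent.H997.BM Set

theorem result (m R₀ : ℝ) (G h : E → Matrix (Fin 3) (Fin 3) ℝ) (hm : 0 < m)
    -- the given data is exactly Schwarzschild of mass `m` for `|x| > R₀`, arbitrary elsewhere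
    (hG : ∀ x : E, R₀ < ‖x‖ → G x = metric (schw m) x ∧ h x = 0)
    (R ε : ℝ) (hR₀ : R₀ ≤ R) (hR : m / 2 < R) (hε : 0 < ε) :
    ∃ (G' h' : E → Matrix (Fin 3) (Fin 3) ℝ) (φ c : ℝ → ℝ) (lam M R₁ R₂ : ℝ),
      R < R₁ ∧ R₁ < R₂ ∧ 0 < lam ∧ 0 < M ∧ M < ε ∧
      -- nothing is changed for `|x| < R₁`
      (∀ x : E, ‖x‖ < R₁ → G' x = G x ∧ h' x = h x) ∧
      -- outside, `g' = φ(|x|)⁴ δ`, `h' = c(|x|) (δ - n ⊗ n)` with smooth `φ > 0` and `c`
      ContDiffOn ℝ ∞ φ (Ioi 0) ∧ (∀ r, 0 < φ r) ∧ ContDiffOn ℝ ∞ c (Ioi 0) ∧
      (∀ x : E, R < ‖x‖ → G' x = metric φ x ∧ h' x = tang c x) ∧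
      -- near infinity, exactly Schwarzschild of mass `M` in the chart `y = lam x`
      (∀ x : E, R₂ ≤ ‖x‖ → G' x = lam ^ 2 • metric (schw M) (lam • x) ∧ h' x = 0) ∧
      -- the dominant energy condition
      (∀ x : E, R < ‖x‖ → momentumNorm G' h' x ≤ energy G' h' x) ∧
      (∀ x : E, momentumNorm G h x ≤ energy G h x → momentumNorm G' h' x ≤ energy G' h' x) ∧
      -- no surface reaching `|x| > R` is an apparent horizon
      (∀ u : E → ℝ, Surface u → (∃ x, u x = 0 ∧ R < ‖x‖) →
        ∃ x, u x = 0 ∧ R < ‖x‖ ∧ levelTrace G' h' u x < levelMeanCurv G' u x) :=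
  shell_general m R₀ G h hm hG R ε hR₀ hR hε

end Pool.Agent.Results.MP_c642b3_mp.TrappedShell
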